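import Pool.Agent.H752.PL.Stubs

/-!
# Task L11 (helper201): numbers
-/

set_option autoImplicit false

namespace Pool.Agent.H752.PL

open Finset Filter

namespace L11aux

theorem poly_le (w : Polynomial ℕ) : ∃ k : ℕ, ∀ B : ℕ, w.eval B ≤ 2 ^ (k * (B + 1)) := by
  induction w using Polynomial.induction_on' with
  | add p q hp hq =>
    obtain ⟨k1, h1⟩ := hp
    obtain ⟨k2, h2⟩ := hq
    refine ⟨k1 + k2 + 1, fun B => ?_⟩
    rw [Polynomial.eval_add]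
    calc p.eval B + q.eval B ≤ 2 ^ (k1 * (B + 1)) + 2 ^ (k2 * (B + 1)) := Nat.add_le_add (h1 B) (h2 B)
      _ ≤ 2 ^ ((k1 + k2) * (B + 1)) + 2 ^ ((k1 + k2) * (B + 1)) := by
          apply Nat.add_le_add
          · apply Nat.pow_le_pow_right (by norm_num)
            exact Nat.mul_le_mul_right _ (by omega)
          · apply Nat.pow_le_pow_right (by norm_num)
            exact Nat.mul_le_mul_right _ (by omega)
      _ = 2 ^ ((k1 + k2) * (B + 1) + 1) := by rw [pow_succ]; ring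
      _ ≤ 2 ^ ((k1 + k2 + 1) * (B + 1)) := by
          apply Nat.pow_le_pow_right (by norm_num)
          have : (k1 + k2 + 1) * (B + 1) = (k1 + k2) * (B + 1) + (B + 1) := by ring
          omega
  | monomial i a =>
    refine ⟨a + i, fun B => ?_⟩
    rw [Polynomial.eval_monomial]
    have h1 : a ≤ 2 ^ a := Nat.lt_two_pow_self.le
    have h2 : B ^ i ≤ (2 ^ B) ^ i := Nat.pow_le_pow_left Nat.lt_two_pow_self.le i
    calc a * B ^ i ≤ 2 ^ a * (2 ^ B) ^ i := Nat.mul_le_mul h1 h2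
      _ = 2 ^ (a + B * i) := by rw [← pow_mul, pow_add]
      _ ≤ 2 ^ ((a + i) * (B + 1)) := by
          apply Nat.pow_le_pow_right (by norm_num)
          nlinarith

/-- the exponent -/
def K (c : ℕ) (w : Polynomial ℕ) (n : ℕ) : ℕ :=
  (3 * n + 3) + (2 ^ ((Nat.log 2 n + c) ^ c + 1) * w.eval ((Nat.log 2 n + c) ^ c) + 1)

theorem K_le (c : ℕ) (w : Polynomial ℕ) (k : ℕ) (hk : ∀ B : ℕ, w.eval B ≤ 2 ^ (k * (B + 1)))
    (m : ℕ) : K c w m ≤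
      2 ^ (Nat.log 2 m + 4 + (k + 1) * ((Nat.log 2 m + c) ^ c + 1)) := by
  unfold K
  set ℓ := Nat.log 2 m with hℓ
  set B := (ℓ + c) ^ c with hB
  have h1 : m < 2 ^ (ℓ + 1) := by
    rw [hℓ]; exact Nat.lt_pow_succ_log_self (by norm_num) m
  have h2 : (3 * m + 3) + 1 ≤ 2 ^ (ℓ + 4) - 1 := by
    have e1 : 2 ^ (ℓ + 4) = 16 * 2 ^ ℓ := by ring
    have e2 : 2 ^ (ℓ + 1) = 2 * 2 ^ ℓ := by ring
    have e3 : 1 ≤ 2 ^ ℓ := Nat.one_le_two_pow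
    rw [e1]
    omega
  have h3 : 2 ^ (B + 1) * w.eval B ≤ 2 ^ ((k + 1) * (B + 1)) := by
    calc 2 ^ (B + 1) * w.eval B ≤ 2 ^ (B + 1) * 2 ^ (k * (B + 1)) := Nat.mul_le_mul_left _ (hk B)
      _ = 2 ^ ((k + 1) * (B + 1)) := by rw [← pow_add]; congr 1; ring
  have h4 : 1 ≤ 2 ^ ((k + 1) * (B + 1)) := Nat.one_le_two_pow
  have h5 : 2 ≤ 2 ^ (ℓ + 4) := by
    calc 2 = 2 ^ 1 := rfl
      _ ≤ 2 ^ (ℓ + 4) := Nat.pow_le_pow_right (by norm_num) (by omega)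
  rw [pow_add 2 (ℓ + 4)]
  set u := 2 ^ (ℓ + 4)
  set v := 2 ^ ((k + 1) * (B + 1))
  have h6 : (u - 1) + v ≤ u * v := by
    obtain ⟨u', hu'⟩ : ∃ u', u = u' + 1 := ⟨u - 1, by omega⟩
    obtain ⟨v', hv'⟩ : ∃ v', v = v' + 1 := ⟨v - 1, by omega⟩
    rw [hu', hv']
    have : u' + 1 - 1 = u' := by omega
    rw [this]
    nlinarith
  omega

theorem K_ge (c : ℕ) (w : Polynomial ℕ) (n : ℕ) : 3 * n + 3 ≤ K c w n := by
  unfold K; exact Nat.le_add_right _ _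

theorem K_ge2 (c : ℕ) (w : Polynomial ℕ) (n : ℕ) :
    2 ^ ((Nat.log 2 n + c) ^ c + 1) * w.eval ((Nat.log 2 n + c) ^ c) + 1 ≤ K c w n := by
  unfold K; exact Nat.le_add_left _ _

attribute [irreducible] K

theorem R_le (c k ℓ : ℕ) (h1 : c ≤ ℓ) (h2 : 16 * (k + 2) ≤ ℓ) :
    ((ℓ + 4 + (k + 1) * ((ℓ + c) ^ c + 1) : ℕ) : ℝ) ≤ ((ℓ : ℝ) / 2) ^ (2 * c + 2) := by
  have h3 : (ℓ + 4 + (k + 1) * ((ℓ + c) ^ c + 1)) ≤ (2 * ℓ) ^ (c + 1) * (2 * (k + 2)) := by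
    have a1 : ℓ + 4 ≤ (2 * ℓ) ^ (c + 1) := by
      calc ℓ + 4 ≤ (2 * ℓ) ^ 1 := by rw [pow_one]; omega
        _ ≤ (2 * ℓ) ^ (c + 1) := Nat.pow_le_pow_right (by omega) (by omega)
    have a2 : (ℓ + c) ^ c ≤ (2 * ℓ) ^ (c + 1) := by
      calc (ℓ + c) ^ c ≤ (2 * ℓ) ^ c := Nat.pow_le_pow_left (by omega) c
        _ ≤ (2 * ℓ) ^ (c + 1) := Nat.pow_le_pow_right (by omega) (by omega)
    have a3 : 1 ≤ (2 * ℓ) ^ (c + 1) := Nat.one_le_pow _ _ (by omega)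
    nlinarith
  have h4 : ((2 * ℓ : ℝ)) ^ (c + 1) * (2 * (k + 2)) ≤ ((ℓ : ℝ) / 2) ^ (2 * c + 2) := by
    have hk1 : (1 : ℝ) ≤ 2 * (k + 2) := by
      have : (0 : ℝ) ≤ k := Nat.cast_nonneg k
      linarith
    have hℓ : (16 : ℝ) * (k + 2) ≤ ℓ := by exact_mod_cast h2
    have hℓ0 : (0 : ℝ) ≤ ℓ := Nat.cast_nonneg ℓ
    have e1 : ((ℓ : ℝ) / 2) ^ (2 * c + 2) = (((ℓ : ℝ) / 2) ^ 2) ^ (c + 1) := by
      rw [← pow_mul]; congr 1
    rw [e1]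
    have e2 : (2 * ℓ : ℝ) * (2 * (k + 2)) ≤ ((ℓ : ℝ) / 2) ^ 2 := by nlinarith
    calc ((2 * ℓ : ℝ)) ^ (c + 1) * (2 * (k + 2))
        ≤ ((2 * ℓ : ℝ)) ^ (c + 1) * (2 * (k + 2)) ^ (c + 1) := by
          gcongr
          exact le_self_pow₀ hk1 (by omega)
      _ = ((2 * ℓ : ℝ) * (2 * (k + 2))) ^ (c + 1) := (mul_pow _ _ _).symm
      _ ≤ (((ℓ : ℝ) / 2) ^ 2) ^ (c + 1) := by gcongr
  refine le_trans ?_ h4
  exact_mod_cast h3

theorem ev_log (c : ℕ) : ∃ ℓ0 : ℕ, ∀ ℓ : ℕ, ℓ0 ≤ ℓ → (ℓ + c) ^ c + 4 ≤ 2 ^ ℓ := by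
  have h := tendsto_pow_const_div_const_pow_of_one_lt c (show (1 : ℝ) < 2 by norm_num)
  have h1 := (h.comp (tendsto_add_atTop_nat c)).eventually_le_const
    (show (0 : ℝ) < 1 / 2 ^ (c + 1) by positivity)
  have h2 := (h1.and (eventually_ge_atTop 3))
  obtain ⟨ℓ0, hℓ0⟩ := eventually_atTop.1 h2
  refine ⟨ℓ0, fun ℓ hℓ => ?_⟩
  obtain ⟨h3, h4⟩ := hℓ0 ℓ hℓ
  simp only [Function.comp] at h3
  rw [div_le_div_iff₀ (by positivity) (by positivity), one_mul] at h3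
  have h5 : (((ℓ + c : ℕ) : ℝ)) ^ c * 2 ≤ 2 ^ ℓ := by
    have e1 : (2 : ℝ) ^ (c + 1) = 2 ^ c * 2 := by ring
    have e2 : (2 : ℝ) ^ (ℓ + c) = 2 ^ c * 2 ^ ℓ := by ring
    rw [e1, e2] at h3
    have : (0 : ℝ) < 2 ^ c := by positivity
    nlinarith
  have h6 : (ℓ + c) ^ c * 2 ≤ 2 ^ ℓ := by exact_mod_cast h5
  have h7 : 8 ≤ 2 ^ ℓ := by
    calc 8 = 2 ^ 3 := by norm_num
      _ ≤ 2 ^ ℓ := Nat.pow_le_pow_right (by norm_num) h4
  omega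

theorem five (a b c d e : ℕ) : ∃ n : ℕ, a ≤ n ∧ b ≤ n ∧ c ≤ n ∧ d ≤ n ∧ e ≤ n :=
  ⟨a + b + c + d + e, by omega, by omega, by omega, by omega, by omega⟩

end L11aux

open L11aux

theorem t_asy : St_asy := by
  intro f hf c w δ hδ
  obtain ⟨k, hk⟩ := poly_le w
  obtain ⟨ℓ0, hℓ0⟩ := ev_log c
  obtain ⟨q, hq⟩ := exists_pow_lt_of_lt_one hδ (show (1 / 2 : ℝ) < 1 by norm_num)
  -- the lower bound for `n`
  obtain ⟨n1, a8, aq, aℓ, ac, ak⟩ : ∃ n1 : ℕ, 8 ≤ n1 ∧ q + 3 ≤ n1 ∧ 2 ^ ℓ0 ≤ n1 ∧ 2 ^ c ≤ n1 ∧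
      2 ^ (16 * (k + 2)) ≤ n1 := five _ _ _ _ _
  have hε : (0 : ℝ) < 1 / ((2 * c + 2 : ℕ) : ℝ) := by positivity
  have hfreq := (hf (1 / ((2 * c + 2 : ℕ) : ℝ)) hε).and_eventually
    (eventually_ge_atTop (max (2 ^ K c w n1) n1))
  obtain ⟨N, hfN, hN⟩ := hfreq.exists
  have hN1 : 2 ^ K c w n1 ≤ N := (le_max_left _ _).trans hN
  have hN2 : n1 ≤ N := (le_max_right _ _).trans hN
  obtain ⟨n, hn1n, hPn, hgr⟩ : ∃ n : ℕ, n1 ≤ n ∧ 2 ^ K c w n ≤ N ∧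
      (n + 1 ≤ N → ¬ (2 ^ K c w (n + 1) ≤ N)) :=
    ⟨Nat.findGreatest (fun n => 2 ^ K c w n ≤ N) N, Nat.le_findGreatest hN2 hN1,
      Nat.findGreatest_spec (P := fun n => 2 ^ K c w n ≤ N) hN2 hN1,
      fun h => Nat.findGreatest_is_greatest (P := fun n => 2 ^ K c w n ≤ N) (Nat.lt_succ_self _) h⟩
  have hKn : 3 * n + 3 ≤ K c w n := K_ge c w n
  have hnN : n + 1 ≤ N := by
    have h1 : n < 2 ^ n := Nat.lt_two_pow_self
    have h2 : 2 ^ n ≤ 2 ^ K c w n := Nat.pow_le_pow_right (by norm_num) (by omega)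
    omega
  have hmax : N < 2 ^ K c w (n + 1) := not_le.1 (hgr hnN)
  refine ⟨n, N, by omega, ?_, ?_, ?_, ?_⟩
  · -- (2)
    have h1 : ℓ0 ≤ Nat.log 2 n := Nat.le_log_of_pow_le (by norm_num) (by omega)
    have h2 := hℓ0 (Nat.log 2 n) h1
    have h3 : 2 ^ Nat.log 2 n ≤ n := Nat.pow_log_le_self 2 (by omega)
    omega
  · exact (Nat.pow_le_pow_right (by norm_num) hKn).trans hPn
  · exact le_trans (Nat.pow_le_pow_right (by norm_num) (K_ge2 c w n)) hPn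
  · -- (5)
    set ℓ := Nat.log 2 (n + 1) with hℓ
    have hℓc : c ≤ ℓ := by
      have h0 : 2 ^ c ≤ n + 1 := by omega
      exact Nat.le_log_of_pow_le (by norm_num) h0
    have hℓk : 16 * (k + 2) ≤ ℓ := by
      have h0 : 2 ^ (16 * (k + 2)) ≤ n + 1 := by omega
      exact Nat.le_log_of_pow_le (by norm_num) h0
    set R : ℕ := ℓ + 4 + (k + 1) * ((ℓ + c) ^ c + 1) with hR
    have hKR : K c w (n + 1) ≤ 2 ^ R := K_le c w k hk (n + 1)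
    have hRle := R_le c k ℓ hℓc hℓk
    have hN4 : (4 : ℝ) ≤ N := by
      have : 4 ≤ N := by omega
      exact_mod_cast this
    have hN0 : (0 : ℝ) < N := by linarith
    have l1 : Real.logb 2 N ≤ K c w (n + 1) := by
      rw [Real.logb_le_iff_le_rpow (by norm_num) hN0, Real.rpow_natCast]
      exact_mod_cast hmax.le
    have l2 : (2 : ℝ) ≤ Real.logb 2 N := by
      rw [Real.le_logb_iff_rpow_le (by norm_num) hN0]
      calc (2 : ℝ) ^ (2 : ℝ) = 4 := by norm_num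
        _ ≤ N := hN4
    have l3 : Real.logb 2 (Real.logb 2 N) ≤ R := by
      rw [Real.logb_le_iff_le_rpow (by norm_num) (by linarith), Real.rpow_natCast]
      refine l1.trans ?_
      exact_mod_cast hKR
    have l4 : 0 ≤ Real.logb 2 (Real.logb 2 N) := Real.logb_nonneg (by norm_num) (by linarith)
    have hℓ2 : (0 : ℝ) ≤ (ℓ : ℝ) / 2 := by positivity
    have l5 : (Real.logb 2 (Real.logb 2 N)) ^ (1 / ((2 * c + 2 : ℕ) : ℝ)) ≤ (ℓ : ℝ) / 2 := by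
      calc (Real.logb 2 (Real.logb 2 N)) ^ (1 / ((2 * c + 2 : ℕ) : ℝ))
          ≤ (((ℓ : ℝ) / 2) ^ (2 * c + 2)) ^ (1 / ((2 * c + 2 : ℕ) : ℝ)) :=
            Real.rpow_le_rpow l4 (l3.trans hRle) hε.le
        _ = (ℓ : ℝ) / 2 := by
            rw [one_div]
            exact Real.pow_rpow_inv_natCast hℓ2 (by omega)
    -- `2 ^ (ℓ / 2) ≤ n - 3`
    have l6 : (2 : ℝ) ^ ((ℓ : ℝ) / 2) ≤ (n : ℝ) - 3 := by
      have h1 : 2 ^ ℓ ≤ n + 1 := Nat.pow_log_le_self 2 (by omega)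
      have h2 : ((2 : ℝ) ^ ((ℓ : ℝ) / 2)) ^ 2 ≤ n + 1 := by
        rw [← Real.rpow_natCast, ← Real.rpow_mul (by norm_num)]
        have : (ℓ : ℝ) / 2 * ((2 : ℕ) : ℝ) = (ℓ : ℝ) := by push_cast; ring
        rw [this, Real.rpow_natCast]
        exact_mod_cast h1
      have h3 : (8 : ℝ) ≤ n := by
        have : 8 ≤ n := by omega
        exact_mod_cast this
      have h4 : (0 : ℝ) ≤ (2 : ℝ) ^ ((ℓ : ℝ) / 2) := by positivity
      nlinarith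
    have l7 : f N ≤ 2 ^ (n - 3) := by
      refine hfN.trans ?_
      have h1 : (2 : ℝ) ^ (2 : ℝ) ^ (Real.logb 2 (Real.logb 2 N)) ^ (1 / ((2 * c + 2 : ℕ) : ℝ)) ≤
          (2 : ℝ) ^ ((n : ℝ) - 3) := by
        apply Real.rpow_le_rpow_of_exponent_le (by norm_num)
        refine le_trans ?_ l6
        exact Real.rpow_le_rpow_of_exponent_le (by norm_num) l5
      refine h1.trans (le_of_eq ?_)
      rw [← Real.rpow_natCast, Nat.cast_sub (by omega)]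
      norm_num
    have l8 : (3 / 4 : ℝ) ^ (2 ^ n) ≤ (1 / 2 : ℝ) ^ (2 ^ (n - 2)) := by
      have e1 : 2 ^ n = 4 * 2 ^ (n - 2) := by
        have : n = (n - 2) + 2 := by omega
        conv_lhs => rw [this, pow_add]
        ring
      rw [e1, pow_mul]
      gcongr
      norm_num
    have l9 : (2 : ℝ) ^ f N ≤ 2 ^ (2 ^ (n - 3)) := by
      rw [← Real.rpow_natCast 2 (2 ^ (n - 3))]
      apply Real.rpow_le_rpow_of_exponent_le (by norm_num)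
      push_cast
      exact l7
    calc (3 / 4 : ℝ) ^ (2 ^ n) * 2 ^ f N ≤ (1 / 2 : ℝ) ^ (2 ^ (n - 2)) * 2 ^ (2 ^ (n - 3)) := by
          gcongr
      _ = (1 / 2 : ℝ) ^ (2 ^ (n - 3)) := by
          have e1 : 2 ^ (n - 2) = 2 ^ (n - 3) + 2 ^ (n - 3) := by
            have : n - 2 = (n - 3) + 1 := by omega
            rw [this, pow_succ]; ring
          rw [e1, pow_add, mul_assoc, ← mul_pow]
          norm_num
      _ ≤ (1 / 2 : ℝ) ^ q := by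
          apply pow_le_pow_of_le_one (by norm_num) (by norm_num)
          have : n - 3 < 2 ^ (n - 3) := Nat.lt_two_pow_self
          omega
      _ ≤ δ := hq.le

end Pool.Agent.H752.PL
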